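import Mathlib
import Pool.Agent.MP_8c549f_pr.EX.Main

/-!
For `p` close to `1` the biased walk on the percolation cluster of the lattice of dimension
`D + 1 ≥ 2` has a unique speed for every bias, and the speed is strictly increasing in the bias on
`(0, D log (1 / (1 - p)) - η]`.
-/

set_option autoImplicit false

open Pool.Agent.MP_8c549f_pr

theorem Pool.Agent.Results.MP_8c549f_pr.IncreasingSpeed.result :
    ∀ (D : ℕ), 1 ≤ D → ∀ η : ℝ, 0 < η → ∃ p₀ : ℝ, p₀ < 1 ∧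
      ∀ p : ℝ, p₀ < p → p < 1 → ∃ v : ℝ → ℝ, (∀ x, 0 < x → ∀ w, HasSpeed D p x w ↔ w = v x) ∧
        StrictMonoOn v (Set.Ioc 0 (D * Real.log (1 / (1 - p)) - η)) := by
  intro D hD η hη
  refine EX.lift hD ?_
  obtain ⟨p₀, h0, h⟩ := L2.fullInc D hD η hη
  exact ⟨p₀, h0, fun p h1 h2 v hv x hx y hy hxy =>
    h p h1 h2 x y _ _ hx.1 hxy hy.2 (hv x hx.1) (hv y hy.1)⟩
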