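import Mathlib
import Pool.Agent.MP_8c549f_pr.FinalA

/-!
Location and value of the largest speed of the biased walk on the percolation cluster of the
lattice of dimension `D + 1` when `p` is close to `1`.
-/

set_option autoImplicit false

open Pool.Agent.MP_8c549f_pr

theorem Pool.Agent.Results.MP_8c549f_pr.MaxAsymptotics.result :
    ∀ (D : ℕ), 1 ≤ D → ∀ η : ℝ, 0 < η → ∃ p₀ : ℝ, p₀ < 1 ∧
      ∀ p : ℝ, p₀ < p → p < 1 → ∀ v : ℝ → ℝ, (∀ x, 0 < x → HasSpeed D p x (v x)) →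
        (∀ x, 0 < x → v x ≤ 1 - ((if D = 1 then 3 else 1) - η) * (1 - p)) ∧
        ∃ x, 0 < x ∧ |x - D * Real.log (1 / (1 - p))| ≤ η ∧
          1 - ((if D = 1 then 3 else 1) + η) * (1 - p) ≤ v x ∧
          ∀ y, 0 < y → η < |y - D * Real.log (1 / (1 - p))| → v y < v x :=
  maxStmt
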