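import Mathlib
import Pool.Agent.MP_8c549f_pr.PK.Main
import Pool.Agent.MP_8c549f_pr.EX.Main

/-!
In every dimension `D + 1 ≥ 3` and for `p` close to `1`, the speed of the biased walk on the
percolation cluster exists, attains its largest value, and every bias at which it does so equals
`D log (1 / (1 - p)) - √(1 - p) / (2 D)` up to `o (√(1 - p))`.
-/

set_option autoImplicit false

open Pool.Agent.MP_8c549f_pr

theorem Pool.Agent.Results.MP_8c549f_pr.PeakSpeed.result :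
    ∀ (D : ℕ), 2 ≤ D → ∀ η : ℝ, 0 < η → ∃ p₀ : ℝ, p₀ < 1 ∧
      ∀ p : ℝ, p₀ < p → p < 1 → ∃ v : ℝ → ℝ, (∀ x, 0 < x → ∀ w, HasSpeed D p x w ↔ w = v x) ∧
        (∃ m, 0 < m ∧ ∀ x, 0 < x → v x ≤ v m) ∧
        ∀ m, 0 < m → (∀ x, 0 < x → v x ≤ v m) →
          |m - (D * Real.log (1 / (1 - p)) - √(1 - p) / (2 * D))| ≤ η * √(1 - p) :=
  fun D hD η hη => EX.lift (by omega) (PK.place D hD η hη)
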