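import Mathlib
import Pool.Agent.MP_8c549f_pr.EX.Main

/-!
In every dimension `D + 1 ≥ 3` and for `p` close to `1`, the biased walk on the percolation cluster
has a unique speed for every bias, and the speed is a unimodal function of the bias on `(0, ∞)`.
-/

set_option autoImplicit false

open Pool.Agent.MP_8c549f_pr

theorem Pool.Agent.Results.MP_8c549f_pr.UnimodalSpeed.result :
    ∀ (D : ℕ), 2 ≤ D → ∃ p₀ : ℝ, p₀ < 1 ∧
      ∀ p : ℝ, p₀ < p → p < 1 → ∃ v : ℝ → ℝ, (∀ x, 0 < x → ∀ w, HasSpeed D p x w ↔ w = v x) ∧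
        ∃ m : ℝ, 0 < m ∧ MonotoneOn v (Set.Ioc 0 m) ∧ AntitoneOn v (Set.Ici m) := by
  intro D hD
  refine EX.lift (by omega) ?_
  obtain ⟨p₀, h0, h⟩ := L2.fullUni D hD 1 one_pos
  refine ⟨p₀, h0, fun p h1 h2 v hv => ?_⟩
  obtain ⟨m, m0, m1, m2, -⟩ := h p h1 h2 v hv
  exact ⟨m, m0, m1, m2⟩
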